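import Pool.Agent.H629.CG.Stm

/-!
# Project CG (helper629), task CMP (helper190): comparison with independent blocks
-/

set_option autoImplicit false

namespace Pool.Agent.H190.CG.CMP

open MeasureTheory ProbabilityTheory Filter Topology Set
open scoped ENNReal NNReal
open Pool.Agent.H629.CG

theorem LNF.mono {Ω : Type} [MeasurableSpace Ω] {A B : Set ℝ} {P : Measure Ω} {X : ℝ → Ω → ℝ}
    {K : ℝ → ℝ → ℝ} (h : LNF B P X K) (hAB : A ⊆ B) : LNF A P X K where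
  meas := h.meas
  gauss n t ht := h.gauss n t fun i => hAB (ht i)
  mean t ht := h.mean t (hAB ht)
  cov s hs t ht := h.cov s (hAB hs) t (hAB ht)

theorem t_CMP : S_KAH → S_GEO → S_BLK → S_R2 → S_CMP := by
  intro hKAH hGEO hBLK hR2 μ r hμ hr δ hδ
  obtain ⟨C0, hC0, hR1, hR2', -⟩ := (hR2 r hr).1 δ hδ
  refine ⟨μ * C0, by positivity, ?_⟩
  intro ε₀ Ω _ P X hε₀ hε₀' hF m hm ε hε hme c hc a ha
  have hm1 : (1 : ℝ) ≤ m := by exact_mod_cast hm
  have hm0 : (0 : ℝ) < m := by linarith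
  have hk1 : (1 : ℝ) ≤ 2 * m := by linarith
  have hk0 : (0 : ℝ) < 2 * m := by linarith
  have hlog : 0 ≤ Real.log (2 * m) := Real.log_nonneg hk1
  obtain ⟨ε', hε'⟩ : ∃ ε', ε' = 2 * (m : ℝ) * ε := ⟨_, rfl⟩
  rw [← hε'] at hme ⊢
  have hε'0 : 0 < ε' := by rw [hε']; positivity
  have hε'2 : ε' ≤ 1 / 2 := by linarith
  have hεε' : ε ≤ ε' := by rw [hε']; nlinarith
  have hεm : ε ∈ Ioo 0 ε₀ := ⟨hε, by linarith⟩
  have hε'm : ε' ∈ Ioo 0 ε₀ := ⟨hε'0, hme⟩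
  have hPp : IsProbabilityMeasure (P ε) := hF.prob ε hεm
  have hPp' : IsProbabilityMeasure (P ε') := hF.prob ε' hε'm
  obtain ⟨V, hV⟩ : ∃ V, V = μ * (1 + δ) * Real.log (2 * m) + μ * C0 := ⟨_, rfl⟩
  have hV0 : 0 ≤ V := by rw [hV]; positivity
  rw [← hV]
  obtain ⟨Y, L, hY, hsame, hdiff, hmom⟩ := hBLK (Ω ε') (P ε') (X ε') _ (hF.lnf ε' hε'm) V hV0 m c
    hm hc
  obtain ⟨hG1, -, -, hG4, hG5⟩ := hGEO m hm
  obtain ⟨hA, hAH, hvol⟩ := hG1 c hc
  have hjlt : ∀ i : Fin m, 2 * (i : ℕ) + c < 2 * m := fun i => by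
    have := i.2
    omega
  have key := hKAH (Ω ε) ((Fin m → Ω ε') × ℝ) (P ε)
    ((Measure.pi fun _ : Fin m => P ε').prod (gaussianReal 0 1)) (evn m c) (X ε) Y
    (fun s t => μ * rho r ε |s - t|) L hA (by rw [hvol]; simp)
    (by rw [hvol]; exact ENNReal.ofReal_ne_top) (LNF.mono (hF.lnf ε hεm) hAH) hY ?_ ?_ a
  · rw [← hmom a]
    exact key.1 ha
  · refine ⟨V + μ * rho r ε' 0, fun t ht => ?_⟩
    obtain ⟨i, hi⟩ := mem_iUnion.1 ht
    rw [hsame i t hi t hi, sub_self, abs_zero]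
  · intro s hs t ht
    obtain ⟨i, hi⟩ := mem_iUnion.1 hs
    obtain ⟨i', hi'⟩ := mem_iUnion.1 ht
    by_cases hii : i = i'
    · subst hii
      rw [hsame i s hi t hi']
      have h1 := hG4 _ (hjlt i) s hi
      have h2 := hG4 _ (hjlt i) t hi'
      obtain ⟨s', hs'⟩ : ∃ s', s' = 2 * (m : ℝ) * s - ((2 * (i : ℕ) + c : ℕ) : ℝ) / 2 := ⟨_, rfl⟩
      obtain ⟨t', ht'⟩ : ∃ t', t' = 2 * (m : ℝ) * t - ((2 * (i : ℕ) + c : ℕ) : ℝ) / 2 := ⟨_, rfl⟩
      rw [← hs'] at h1 ⊢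
      rw [← ht'] at h2 ⊢
      have hst : s' - t' = 2 * m * (s - t) := by rw [hs', ht']; ring
      have habs : |s' - t'| = 2 * m * |s - t| := by
        rw [hst, abs_mul, abs_of_pos hk0]
      have hd : |s' - t'| ≤ 1 / 2 := by
        rw [abs_le]
        constructor
        · linarith [h1.1, h2.2]
        · linarith [h1.2, h2.1]
      have h3 := hR1 (2 * m) ε' |s' - t'| hk1 hε'0 hε'2 (abs_nonneg _) hd
      have e1 : ε' / (2 * m) = ε := by rw [hε']; field_simp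
      have e2 : |s' - t'| / (2 * m) = |s - t| := by rw [habs]; field_simp
      rw [e1, e2] at h3
      calc μ * rho r ε |s - t| ≤ μ * (rho r ε' |s' - t'| + (1 + δ) * Real.log (2 * m) + C0) :=
            mul_le_mul_of_nonneg_left h3 hμ.le
        _ = V + μ * rho r ε' |s' - t'| := by rw [hV]; ring
    · rw [hdiff i i' hii s hi t hi']
      obtain ⟨h1, h2⟩ := hG5 c hc i i' hii s hi t hi'
      have h3 := hR2' (2 * m) ε |s - t| hk1 hε (by linarith) (by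
        have e : (1 : ℝ) / (2 * (2 * m)) = 1 / (4 * m) := by ring
        rw [e]; exact h1) h2
      calc μ * rho r ε |s - t| ≤ μ * ((1 + δ) * Real.log (2 * m) + C0) :=
            mul_le_mul_of_nonneg_left h3 hμ.le
        _ = V := by rw [hV]; ring

end Pool.Agent.H190.CG.CMP
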